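import Mathlib
import Pool.Agent.V1199.COmega

open Set Filter Topology

namespace Pool.Agent.Results.MP_6b2627_an.NotResidual

open Pool.Agent.V1199.Assouad Pool.Agent.V1199.COmega

/-- There is a concave modulus `ω` with `η = lim log ω(t) / log t < 1` and a ball of the big space
on which, for every `θ ∈ (0, η]`, the Assouad spectrum is strictly smaller than the value
`2 - (η - θ) / (1 - θ)`. In particular the set of functions satisfying the formula (even for one
`θ ∈ (0, η]`) is not residual. -/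
theorem result : ∃ (ω : Modulus) (η : ℝ), ConcaveOn ℝ (Icc (0 : ℝ) 1) ω.toFun ∧ η < 1 ∧
    Tendsto (fun t => Real.log (ω.toFun t) / Real.log t) (𝓝[>] 0) (𝓝 η) ∧
    (∃ (f₀ : COm ω) (ε : ℝ), 0 < ε ∧ ∀ f : COm ω, ‖f - f₀‖ < ε → ∀ θ ∈ Ioc 0 η,
      dimSpec θ (graph f) < 2 - (η - θ) / (1 - θ)) ∧
    {f : COm ω | ∀ θ ∈ Ioc 0 η, dimSpec θ (graph f) = 2 - (η - θ) / (1 - θ)} ∉
      residual (COm ω) ∧
    ∀ θ ∈ Ioc 0 η, {f : COm ω | dimSpec θ (graph f) = 2 - (η - θ) / (1 - θ)} ∉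
      residual (COm ω) := by
  have key : ∀ f : COm sqrtMod, ‖f - f₀‖ < 1 / 24 → ∀ θ ∈ Ioc (0 : ℝ) (1 / 2),
      dimSpec θ (graph f) < 2 - (1 / 2 - θ) / (1 - θ) := by
    intro f hf θ hθ
    rcases hθ.2.eq_or_lt with h | h
    · subst h
      have := ball_dimSpec hf (θ := 1 / 2) (by norm_num)
      simpa using this
    · have h1 := ball_dimSpec_lt hf hθ.1 h
      have h2 : 2 - (1 / 2 - θ) / (1 - θ) = (3 / 2 - θ) / (1 - θ) := by
        have : (1 - θ) ≠ 0 := by linarith [hθ.2]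
        field_simp
        ring
      rw [h2]
      exact h1
  refine ⟨sqrtMod, 1 / 2, sqrt_concave, by norm_num, sqrt_log,
    ⟨f₀, 1 / 24, by norm_num, key⟩, ?_, fun θ hθ => ?_⟩
  · refine not_residual fun f hf h => ?_
    have h1 := key f hf (1 / 2) ⟨by norm_num, le_rfl⟩
    have h2 := h (1 / 2) ⟨by norm_num, le_rfl⟩
    linarith
  · refine not_residual fun f hf h => ?_
    have h1 := key f hf θ hθ
    have h2 : dimSpec θ (graph f) = 2 - (1 / 2 - θ) / (1 - θ) := h
    linarith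

end Pool.Agent.Results.MP_6b2627_an.NotResidual
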